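import Pool.Agent.Q212.LB5

/-!
# A Cantor completely metrizable `𝒦`-Loeb space with a cuf base that is not Loeb

The model is a symmetric extension of permutation type: the atoms (represented by sets of mutually
generic Cohen reals) are indexed by the finitely supported sequences of integers, supports are
finite, and the group consists of the permutations of the index set that preserve, for all `k`,
the congruence of the first `k` coordinates modulo `2 ^ k`, the equality of the first `i`
coordinates, and the difference of the `i`-th coordinates of two points with the same first `i`
coordinates.

The distance of two points is `(1/2) ^ k` for the largest `k` for which they are congruent. There
are finitely many balls of each radius, so the balls are a cuf base. A decreasing sequence of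
closed sets with diameters tending to `0` determines a compatible sequence of balls, which is
preserved by all elements of the group that fix a finite set `E`. A move of one late coordinate
inside a small ball shows that these balls have a common point in `E`. If a set `K` in the model
has the support `E` and contains a point `x` that is not in `E`, then it contains infinitely many
points which differ from `x` in one coordinate, and the closed sets of the points that agree with
`x` before this coordinate and approach there a 2-adic limit which is not an integer show that `K`
is not compact. So compact subsets are finite, and the least element in the lexicographic order
(which is preserved by the group) is a choice. The set of the points whose first coordinate is `m`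
is closed and preserved by all elements of the group that fix a given nonempty finite set `E`, but
if no point of `E` has the first coordinate `m`, then none of its points is preserved. So there is
no choice function for the closed sets.
-/

set_option autoImplicit false

namespace Pool.Agent.Results.MP_fc22d4_lc.CufBaseNotLoeb

open Pool.Agent.W868 Pool.Agent.Q211.TP Pool.Agent.Q212.LB

/-- There is a countable transitive model of ZF that contains a Cantor completely metrizable
`𝒦`-Loeb space `(X, τ)` which has a cuf base and is not Loeb in the model. -/
theorem result : ∃ M : Set ZFSet.{0}, M.Countable ∧ IsZF M ∧ ∃ X ∈ M, ∃ τ ∈ M,
    IsTopIn M X τ ∧ CantorMetrizableIn M X τ ∧ KLoebIn M X τ ∧ CufBaseIn M X τ ∧
      ¬ LoebIn M X τ :=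
  main

end Pool.Agent.Results.MP_fc22d4_lc.CufBaseNotLoeb
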